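import Pool.Agent.H99.Jump.Final

/-!
Let `k ≥ 3` and let `A` be an infinite set for which `r_1(A, n, k)` is increasing from a certain
point on. Then the increments `r_1(A, n, k) - r_1(A, n - 1, k)` are at least `c n` for infinitely
many `n` when `k ≥ 4`, and at least `c n / (log n) ^ 2` for infinitely many `n` when `k = 3`; the
constant `c > 0` depends only on `k`. `R1 A k n` is `r_1(A, n, k)`, the number of `k`-tuples of
elements of `A` with sum `n`. (The proof: `∑ (r_1(A,n,k) - r_1(A,n-1,k)) ^ 2 x ^ n` is at least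
`c (∑ a ∈ A, x ^ a) ^ k` for every set `A` and `0 < x < 1` if `k ≥ 4`, see
`Pool.Agent.H99.Jump.square_sum_ge`.)
-/

namespace Pool.Agent.Results.MP_c06095_nt.Increments

open Filter Pool.Agent.H99.Inc Pool.Agent.H99.Jump

theorem result (k : ℕ) (hk : 3 ≤ k) : ∃ c : ℝ, 0 < c ∧ ∀ A : Set ℕ, A.Infinite →
    (∃ n₀, ∀ n ≥ n₀, R1 A k n ≤ R1 A k (n + 1)) →
      ∃ᶠ n : ℕ in atTop,
        c * (n / (Real.log n) ^ (if k = 3 then 2 else 0)) ≤ (R1 A k n : ℝ) - R1 A k (n - 1) := by
  rcases hk.eq_or_lt with rfl | h4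
  · rw [if_pos rfl]
    exact frequently_inc_ge_three
  · obtain ⟨c, hc, h⟩ := frequently_inc_ge (k := k) h4
    refine ⟨c, hc, fun A hA hm => ?_⟩
    rw [if_neg (by omega)]
    simpa using h A hA hm

end Pool.Agent.Results.MP_c06095_nt.Increments
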