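import Pool.Agent.H65.CP.Fin

/-!
Let `k ≥ 5` and let `A` be an infinite set for which `r_1(A, n, k)` is increasing from a certain
point on. Then `A(n) ≥ c (n log n) ^ (2 / k)` for infinitely many `n`, where `A(n)` is the number of
elements of `A` which are at most `n` and the constant `c > 0` depends only on `k`. `R1 A k n` is
`r_1(A, n, k)`, the number of `k`-tuples of elements of `A` with sum `n`.

Sketch: let `G(z) = ∑ a ∈ A, z ^ a`, `D = (1 - z) G ^ k` and `T = ∑ |coeff n D| ρ ^ n` with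
`ρ = 1 - 1 / N`. On the circle of radius `ρ` one has
`|G| ^ 2 = T ^ (2 / k) s ^ (1 / k) |1 - z| ^ (- 2 / k)` with `s = |D| ^ 2 / T ^ 2 ≤ 1`. The function
`s ^ (1 / k)` is approximated up to `O(K ^ (- 2 / k))` by a combination of Chebyshev polynomials of
degree at most `2 K` in `1 - 2 s` (`Pool.Agent.H65.CP.jackson`). The Fourier coefficients of the main
term are large on few frequencies only (`Pool.Agent.H65.CP.Lam`), those of `|G| ^ 2` are at least
`1 / 16` at all differences of elements of `A` up to `N` (`Pool.Agent.H65.CP.core`); `K` is a small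
multiple of `log N`.
-/

namespace Pool.Agent.Results.MP_c06095_nt.LogarithmicGain

open Filter Pool.Agent.H99.Inc Pool.Agent.H65.CP

theorem result (k : ℕ) (hk : 5 ≤ k) : ∃ c : ℝ, 0 < c ∧ ∀ A : Set ℕ, A.Infinite →
    (∃ n₀, ∀ n ≥ n₀, R1 A k n ≤ R1 A k (n + 1)) →
      ∃ᶠ n : ℕ in atTop,
        c * ((n : ℝ) * Real.log n) ^ (2 / (k : ℝ)) ≤ ({a ∈ A | a ≤ n}.ncard : ℝ) := by
  obtain ⟨c, hc, h⟩ := lower_bound hk
  refine ⟨c, hc, fun A hA hm => (h A hA hm).mono fun n hn => ?_⟩
  have h1 : {a ∈ A | a ≤ n} = (AN A n : Set ℕ) := by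
    ext a
    rw [Finset.mem_coe, mem_AN]
    exact ⟨fun h => ⟨h.2, h.1⟩, fun h => ⟨h.2, h.1⟩⟩
  rw [h1, Set.ncard_coe_finset]
  exact hn

end Pool.Agent.Results.MP_c06095_nt.LogarithmicGain
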