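import Pool.Agent.H65.RC.Fin

/-!
Let `k ≥ 3`, `ε ≥ 0`, `η > 0`, and let `A` be an infinite set with `A(n) = O(n ^ (2 / k + ε))` for
which `r_1(A, n, k)` is increasing from a certain point on (`R1 A k n` is `r_1(A, n, k)`, the number
of `k`-tuples of elements of `A` with sum `n`). Then the initial segments of `A` recur: for all
sufficiently large `N` and every `M ≤ N ^ (1 / (1 + k ε) - η)` there is a shift `s` with
`N ^ (1 / (1 + k ε) - η) ≤ s ≤ N` such that at least `A(M) N ^ (- k ε - η)` of the `A(M)` elements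
`a ≤ M` of `A` satisfy `a + s ∈ A`.

Proof. Let `G = ∑ a ∈ A, z ^ a` and let `D = (1 - z) G ^ k = ∑ d_n z ^ n` be the series of the
increments of `r_1`. From `k z G' D - G z D' = z G ^ (k + 1)` one gets
`∑ a ∈ A, (k a - (n - a)) d_(n - a) ≥ 0` for all `n` (`Pool.Agent.H65.RC.moment_identity`). For
`n = j + a₀` with `a₀ ∈ A` small and `d_j` large this forces many `a ∈ A` with `a ≥ n / (k + 1)` and
`d_(n - a)` large (`fibre`); summation over `a₀ ≤ M` gives the shift (`recur`). Large `d_j` exist at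
every scale, `jumps`, because `∑ d_n ^ 2 y ^ (2 n)` is at least about `G(y ^ 2) ^ k` (`sq_ge`) and
`∑ |d_n| y ^ n` is about `(1 - y) G(y) ^ k`.
-/

namespace Pool.Agent.Results.MP_c06095_nt.Recurrence

open Pool.Agent.H99.Inc Pool.Agent.H65.CP Pool.Agent.H65.RC

theorem result (k : ℕ) (hk : 3 ≤ k) (ε η : ℝ) (hε : 0 ≤ ε) (hη : 0 < η)
    (A : Set ℕ) (hA : A.Infinite) (hr : ∃ n₀, ∀ n ≥ n₀, R1 A k n ≤ R1 A k (n + 1))
    (hO : ∃ C : ℝ, ∀ n : ℕ, 1 ≤ n →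
      ({a ∈ A | a ≤ n}.ncard : ℝ) ≤ C * (n : ℝ) ^ (2 / (k : ℝ) + ε)) :
    ∃ N₀ : ℕ, ∀ N ≥ N₀, ∀ M : ℕ, (M : ℝ) ≤ (N : ℝ) ^ (1 / (1 + k * ε) - η) →
      ∃ s : ℕ, (N : ℝ) ^ (1 / (1 + k * ε) - η) ≤ s ∧ s ≤ N ∧
        ({a ∈ A | a ≤ M}.ncard : ℝ) * (N : ℝ) ^ (-(k * ε) - η) ≤
          ({a ∈ A | a ≤ M ∧ a + s ∈ A}.ncard : ℝ) := by
  classical
  have h1 : ∀ n : ℕ, {a ∈ A | a ≤ n}.ncard = (AN A n).card := by
    intro n
    rw [← Set.ncard_coe_finset]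
    congr 1
    ext a
    rw [Finset.mem_coe, mem_AN]
    exact ⟨fun h => ⟨h.2, h.1⟩, fun h => ⟨h.2, h.1⟩⟩
  have h2 : ∀ M s : ℕ, ({a ∈ A | a ≤ M ∧ a + s ∈ A}.ncard : ℝ) = nu A M s := by
    intro M s
    have h3 : {a ∈ A | a ≤ M ∧ a + s ∈ A} = ((AN A M).filter fun a => a + s ∈ A : Finset ℕ) := by
      ext a
      rw [Finset.mem_coe, Finset.mem_filter, mem_AN]
      exact ⟨fun h => ⟨⟨h.2.1, h.1⟩, h.2.2⟩, fun h => ⟨h.1.2, h.1.1, h.2⟩⟩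
    rw [h3, Set.ncard_coe_finset, Finset.card_filter, nu]
    push_cast
    refine Finset.sum_congr rfl fun a _ => ?_
    unfold ind
    split_ifs <;> rfl
  obtain ⟨C, hC⟩ := hO
  obtain ⟨N₀, hN₀⟩ := main hA hk hr hε hη ⟨C, fun n hn => by rw [← h1]; exact hC n hn⟩
  refine ⟨N₀, fun N hN M hM => ?_⟩
  obtain ⟨s, hs1, hs2, hs3⟩ := hN₀ N hN M hM
  refine ⟨s, hs1, hs2, ?_⟩
  rw [h1, h2]
  exact hs3

end Pool.Agent.Results.MP_c06095_nt.Recurrence
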