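import Pool.Agent.H99.Inc.Final

/-!
For every `k ≥ 4` and every real `α` with `3 / k < α < 1` there is a set `A` of positive integers
with `A(n)` of order `n ^ α` for which all three representation functions
`r_1(A, n, k)`, `r_2(A, n, k)`, `r_3(A, n, k)` are strictly increasing from a certain point on.
`R1 A k n`, `R2 A k n`, `R3 A k n` count the `k`-tuples of elements of `A` with sum `n`, the
non-decreasing ones and the strictly increasing ones.
-/

namespace Pool.Agent.Results.MP_c06095_nt.ThinSets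

open Pool.Agent.H99.Inc

theorem result (k : ℕ) (hk : 4 ≤ k) (α : ℝ) (hα3 : (3 : ℝ) / k < α) (hα1 : α < 1) :
    ∃ A : Set ℕ, A.Infinite ∧ (∀ a ∈ A, 1 ≤ a) ∧ ∃ (c C : ℝ) (n₀ : ℕ), 0 < c ∧ ∀ n ≥ n₀,
      c * (n : ℝ) ^ α ≤ (Nat.card {a : ℕ // a ∈ A ∧ a ≤ n} : ℝ) ∧
      (Nat.card {a : ℕ // a ∈ A ∧ a ≤ n} : ℝ) ≤ C * (n : ℝ) ^ α ∧
      R1 A k n < R1 A k (n + 1) ∧ R2 A k n < R2 A k (n + 1) ∧ R3 A k n < R3 A k (n + 1) :=
  main k hk α hα3 hα1

end Pool.Agent.Results.MP_c06095_nt.ThinSets
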